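import Pool.Agent.Helper70.MM.Goals

open MeasureTheory Set Metric
open scoped ENNReal Pointwise
open Pool.Agent.Results.MP_91ee6f_gt

namespace Pool.Agent.Helper70.MM

noncomputable section Sph2

/-- the action of a rotation on the unit sphere -/
def sphRot {n : ℕ} (g : En n ≃ₗᵢ[ℝ] En n) (θ : sphere (0 : En n) 1) : sphere (0 : En n) 1 :=
  ⟨g θ, by simp⟩

lemma sphRot_continuous {n : ℕ} (g : En n ≃ₗᵢ[ℝ] En n) : Continuous (sphRot g) := by
  unfold sphRot
  exact Continuous.subtype_mk (g.continuous.comp continuous_subtype_val) _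

lemma sphRot_map {n : ℕ} (g : En n ≃ₗᵢ[ℝ] En n) :
    ((volume : Measure (En n)).toSphere).map (sphRot g) = (volume : Measure (En n)).toSphere := by
  have hm : Measurable (sphRot g) := (sphRot_continuous g).measurable
  ext A hA
  rw [Measure.map_apply hm hA, Measure.toSphere_apply' _ (hm hA), Measure.toSphere_apply' _ hA]
  congr 1
  have h1 : Ioo (0 : ℝ) 1 • (Subtype.val '' (sphRot g ⁻¹' A) : Set (En n))
      = g ⁻¹' (Ioo (0 : ℝ) 1 • (Subtype.val '' A : Set (En n))) := by
    ext x
    constructor
    · rintro ⟨r, hr, y, ⟨θ, hθ, rfl⟩, rfl⟩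
      refine ⟨r, hr, g θ, ⟨sphRot g θ, hθ, rfl⟩, ?_⟩
      simp
    · rintro ⟨r, hr, y, ⟨θ, hθ, rfl⟩, hx⟩
      refine ⟨r, hr, g.symm θ, ⟨⟨g.symm θ, by simp⟩, ?_, rfl⟩, ?_⟩
      · change sphRot g ⟨g.symm θ, _⟩ ∈ A
        have : sphRot g ⟨g.symm θ, by simp⟩ = θ := by
          apply Subtype.ext
          simp [sphRot]
        rw [this]; exact hθ
      · apply g.injective
        simp only at hx ⊢
        rw [← hx]
        simp
  rw [h1]
  exact (g.measurePreserving).measure_preimage_emb
    (g.toHomeomorph.measurableEmbedding) _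

/-- Packet MM-SPH2. -/
theorem sph2 : SPH2 := by
  intro n s
  have hms : ∀ s : ℝ, Measurable (fun θ : sphere (0 : En n) 1 => s • (θ : En n)) := by
    intro s
    exact (continuous_subtype_val.const_smul s).measurable
  constructor
  · intro g
    unfold sphUnif
    rw [Measure.map_smul, Measure.map_map g.continuous.measurable (hms s)]
    congr 1
    have h1 : (g : En n → En n) ∘ (fun θ : sphere (0 : En n) 1 => s • (θ : En n))
        = (fun θ : sphere (0 : En n) 1 => s • (θ : En n)) ∘ sphRot g := by
      ext1 θ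
      simp [sphRot]
    rw [h1, ← Measure.map_map (hms s) (sphRot_continuous g).measurable, sphRot_map]
  · intro t
    unfold sphUnif
    rw [Measure.map_smul, Measure.map_map (continuous_const_smul t).measurable (hms s)]
    congr 2
    ext1 θ
    simp [smul_smul]

end Sph2

end Pool.Agent.Helper70.MM
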